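import Pool.Agent.H27.RC.Stmts

/-!
# Project RC, module SZ: a uniform Szegő type theorem
-/

open scoped ENNReal NNReal InnerProductSpace ComplexOrder
open Filter Topology Polynomial

noncomputable section

namespace Pool.Agent.H16.RC

open Pool.Agent.H27.RC

/-! ## Polynomials in normed algebras -/

theorem pow_mul_bound {R : Type} [NormedRing R] (S Z : R) (hS : ‖S‖ ≤ 2) (k : ℕ) :
    ‖S ^ k * Z‖ ≤ 2 ^ k * ‖Z‖ := by
  induction k with
  | zero => simp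
  | succ k ih =>
    have h1 : S ^ (k + 1) * Z = S * (S ^ k * Z) := by rw [pow_succ', mul_assoc]
    rw [h1]
    calc ‖S * (S ^ k * Z)‖ ≤ ‖S‖ * ‖S ^ k * Z‖ := norm_mul_le _ _
      _ ≤ 2 * (2 ^ k * ‖Z‖) := by gcongr
      _ = 2 ^ (k + 1) * ‖Z‖ := by ring

theorem pow_sub_bound {R : Type} [NormedRing R] (S T : R) (hS : ‖S‖ ≤ 2) (hT : ‖T‖ ≤ 2) (k : ℕ) :
    ‖S ^ k - T ^ k‖ ≤ k * 2 ^ k * ‖S - T‖ := by
  induction k with
  | zero => simp
  | succ k ih =>
    have h1 : S ^ (k + 1) - T ^ (k + 1) = S ^ k * (S - T) + (S ^ k - T ^ k) * T := by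
      rw [pow_succ, pow_succ]; noncomm_ring
    rw [h1]
    calc ‖S ^ k * (S - T) + (S ^ k - T ^ k) * T‖
        ≤ ‖S ^ k * (S - T)‖ + ‖(S ^ k - T ^ k) * T‖ := norm_add_le _ _
      _ ≤ 2 ^ k * ‖S - T‖ + ‖S ^ k - T ^ k‖ * ‖T‖ :=
          add_le_add (pow_mul_bound _ _ hS k) (norm_mul_le _ _)
      _ ≤ 2 ^ k * ‖S - T‖ + (k * 2 ^ k * ‖S - T‖) * 2 := by gcongr
      _ ≤ ((k + 1 : ℕ) : ℝ) * 2 ^ (k + 1) * ‖S - T‖ := by
          have h2 : 0 ≤ (2:ℝ) ^ k * ‖S - T‖ := by positivity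
          have h3 : ((k + 1 : ℕ) : ℝ) * 2 ^ (k + 1) * ‖S - T‖
              = 2 ^ k * ‖S - T‖ + (k * 2 ^ k * ‖S - T‖) * 2 + 2 ^ k * ‖S - T‖ := by
            push_cast; ring
          linarith

/-- The Lipschitz constant of a polynomial on the ball of radius `2`. -/
def lipC (q : ℝ[X]) : ℝ := ∑ k ∈ Finset.range (q.natDegree + 1), |q.coeff k| * (k * 2 ^ k)

/-- A bound of a polynomial on the ball of radius `2`. -/
def bdC (q : ℝ[X]) : ℝ := ∑ k ∈ Finset.range (q.natDegree + 1), |q.coeff k| * 2 ^ k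

theorem lipC_nonneg (q : ℝ[X]) : 0 ≤ lipC q := Finset.sum_nonneg fun _ _ => by positivity

theorem bdC_nonneg (q : ℝ[X]) : 0 ≤ bdC q := Finset.sum_nonneg fun _ _ => by positivity

theorem aeval_sub_bound {R : Type} [NormedRing R] [NormedAlgebra ℝ R] (q : ℝ[X]) (S T : R)
    (hS : ‖S‖ ≤ 2) (hT : ‖T‖ ≤ 2) : ‖aeval S q - aeval T q‖ ≤ lipC q * ‖S - T‖ := by
  rw [aeval_eq_sum_range, aeval_eq_sum_range, ← Finset.sum_sub_distrib, lipC, Finset.sum_mul]
  refine (norm_sum_le _ _).trans (Finset.sum_le_sum fun k _ => ?_)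
  rw [← smul_sub, norm_smul, Real.norm_eq_abs, mul_assoc]
  exact mul_le_mul_of_nonneg_left (pow_sub_bound S T hS hT k) (abs_nonneg _)

theorem aeval_mul_bound {R : Type} [NormedRing R] [NormedAlgebra ℝ R] (q : ℝ[X]) (S Z : R)
    (hS : ‖S‖ ≤ 2) : ‖aeval S q * Z‖ ≤ bdC q * ‖Z‖ := by
  rw [aeval_eq_sum_range, Finset.sum_mul, bdC, Finset.sum_mul]
  refine (norm_sum_le _ _).trans (Finset.sum_le_sum fun k _ => ?_)
  rw [smul_mul_assoc, norm_smul, Real.norm_eq_abs, mul_assoc]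
  exact mul_le_mul_of_nonneg_left (pow_mul_bound S Z hS k) (abs_nonneg _)

/-! ## Functional calculus and polynomials -/

theorem spec_le {B : Type} [CStarAlgebra B] [PartialOrder B] [StarOrderedRing B] {b : B}
    (hb : 0 ≤ b) (hb2 : ‖b‖ ≤ 2) : ∀ t ∈ spectrum ℝ b, 0 ≤ t ∧ t ≤ 2 := by
  intro t ht
  refine ⟨spectrum_nonneg_of_nonneg hb ht, ?_⟩
  have h1 := spectrum.norm_le_norm_mul_of_mem ht
  have h2 : ‖t‖ ≤ ‖b‖ * ‖(1 : B)‖ := h1
  have h3 : ‖(1 : B)‖ ≤ 1 := by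
    rcases subsingleton_or_nontrivial B with h | h
    · rw [Subsingleton.elim (1 : B) 0, norm_zero]; norm_num
    · rw [CStarRing.norm_one]
  calc t ≤ ‖t‖ := le_abs_self t
    _ ≤ ‖b‖ * ‖(1 : B)‖ := h2
    _ ≤ 2 * 1 := by gcongr
    _ = 2 := by ring

theorem cfc_sub_aeval {B : Type} [CStarAlgebra B] [PartialOrder B] [StarOrderedRing B] {b : B}
    (hb : 0 ≤ b) (hb2 : ‖b‖ ≤ 2) (f : ℝ → ℝ) (hf : Continuous f) (q : ℝ[X]) (δ : ℝ) (hδ : 0 ≤ δ)
    (hq : ∀ t, 0 ≤ t → t ≤ 2 → |f t - q.eval t| ≤ δ) : ‖cfc f b - aeval b q‖ ≤ δ := by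
  have hsa : IsSelfAdjoint b := IsSelfAdjoint.of_nonneg hb
  rw [← cfc_polynomial q b hsa, ← cfc_sub (hf := hf.continuousOn) (hg := q.continuous.continuousOn)]
  apply norm_cfc_le hδ
  intro t ht
  obtain ⟨h0, h2⟩ := spec_le hb hb2 t ht
  exact hq t h0 h2

/-! ## Entries and traces -/

theorem norm_del {n : ℕ} (q : ℤ × Fin n) : ‖(del q : Hil n)‖ = 1 := by
  unfold del
  rw [lp.norm_single (by norm_num)]
  simp

theorem norm_entry_le {n : ℕ} (T : Hil n →L[ℂ] Hil n) (p q : ℤ × Fin n) : ‖entry T p q‖ ≤ ‖T‖ := by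
  unfold entry
  calc ‖T (del q) p‖ ≤ ‖T (del q)‖ := lp.norm_apply_le_norm (by norm_num) _ _
    _ ≤ ‖T‖ * ‖(del q : Hil n)‖ := T.le_opNorm _
    _ = ‖T‖ := by rw [norm_del, mul_one]

theorem entry_sub {n : ℕ} (S T : Hil n →L[ℂ] Hil n) (p q : ℤ × Fin n) :
    entry (S - T) p q = entry S p q - entry T p q := rfl

theorem tr0_sub_bound {X : Type} [TopologicalSpace X] {h : X ≃ₜ X} {n : ℕ} {𝒜 : Type}
    [CStarAlgebra 𝒜] (M : Model h n 𝒜) (S T : 𝒜) (x : X) :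
    |tr0 M S x - tr0 M T x| ≤ n * ‖S - T‖ := by
  unfold tr0
  rw [← Finset.sum_sub_distrib]
  refine (Finset.abs_sum_le_sum_abs _ _).trans ?_
  calc ∑ e : Fin n, |(entry (M.fib x S) (0, e) (0, e)).re - (entry (M.fib x T) (0, e) (0, e)).re|
      ≤ ∑ _e : Fin n, ‖S - T‖ := by
        refine Finset.sum_le_sum fun e _ => ?_
        rw [← Complex.sub_re, ← entry_sub, ← map_sub]
        calc |(entry (M.fib x (S - T)) (0, e) (0, e)).re|
            ≤ ‖entry (M.fib x (S - T)) (0, e) (0, e)‖ := Complex.abs_re_le_norm _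
          _ ≤ ‖M.fib x (S - T)‖ := norm_entry_le _ _ _
          _ ≤ ‖S - T‖ := NonUnitalStarAlgHom.norm_apply_le (M.fib x) _
    _ = n * ‖S - T‖ := by simp

theorem trE_term {ι : Type} [Fintype ι] [DecidableEq ι]
    (T : EuclideanSpace ℂ ι →L[ℂ] EuclideanSpace ℂ ι) (p : ι) :
    |(T (EuclideanSpace.single p (1 : ℂ)) p).re| ≤ ‖T‖ := by
  calc |(T (EuclideanSpace.single p (1 : ℂ)) p).re|
      ≤ ‖T (EuclideanSpace.single p (1 : ℂ)) p‖ := Complex.abs_re_le_norm _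
    _ ≤ ‖T (EuclideanSpace.single p (1 : ℂ))‖ := PiLp.norm_apply_le _ _
    _ ≤ ‖T‖ * ‖EuclideanSpace.single p (1 : ℂ)‖ := T.le_opNorm _
    _ = ‖T‖ := by rw [PiLp.norm_single, norm_one, mul_one]

theorem trE_sub_bound {ι : Type} [Fintype ι] [DecidableEq ι]
    (S T : EuclideanSpace ℂ ι →L[ℂ] EuclideanSpace ℂ ι) :
    |trE S - trE T| ≤ Fintype.card ι * ‖S - T‖ := by
  unfold trE
  rw [← Finset.sum_sub_distrib]
  refine (Finset.abs_sum_le_sum_abs _ _).trans ?_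
  calc ∑ p : ι, |(S (EuclideanSpace.single p (1 : ℂ)) p).re
        - (T (EuclideanSpace.single p (1 : ℂ)) p).re|
      ≤ ∑ _p : ι, ‖S - T‖ := Finset.sum_le_sum fun p _ => trE_term (S - T) p
    _ = Fintype.card ι * ‖S - T‖ := by simp

/-! ## Matrix elements of operators of finite propagation -/

theorem apply_eq_tsum {n : ℕ} (T : Hil n →L[ℂ] Hil n) (v : Hil n) (r : ℤ × Fin n) :
    T v r = ∑' q, entry T r q * v q := by
  have h1 : T v r = ⟪(del r : Hil n), T v⟫_ℂ := by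
    unfold del
    rw [lp.inner_single_left]
    simp
  rw [h1, ← ContinuousLinearMap.adjoint_inner_left, lp.inner_eq_tsum]
  refine tsum_congr fun q => ?_
  have h2 : (ContinuousLinearMap.adjoint T (del r) : Hil n) q
      = (starRingEnd ℂ) (entry T r q) := by
    have h3 : (ContinuousLinearMap.adjoint T (del r) : Hil n) q
        = ⟪(del q : Hil n), ContinuousLinearMap.adjoint T (del r)⟫_ℂ := by
      unfold del
      rw [lp.inner_single_left]
      simp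
    rw [h3, ContinuousLinearMap.adjoint_inner_right]
    unfold entry del
    rw [lp.inner_single_right]
    simp
  rw [h2]
  simp [mul_comm]

theorem supp_apply {n : ℕ} (T : Hil n →L[ℂ] Hil n) (M : ℤ)
    (hT : ∀ p q, M < |p.1 - q.1| → entry T p q = 0) (v : Hil n) (c a : ℤ)
    (hv : ∀ r : ℤ × Fin n, a < |r.1 - c| → v r = 0) (r : ℤ × Fin n) (hr : a + M < |r.1 - c|) :
    T v r = 0 := by
  rw [apply_eq_tsum]
  refine (tsum_congr fun q => ?_).trans tsum_zero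
  by_cases h1 : M < |r.1 - q.1|
  · rw [hT r q h1, zero_mul]
  · have h2 : a < |q.1 - c| := by
      have := abs_sub_le r.1 q.1 c
      linarith
    rw [hv q h2, mul_zero]

theorem supp_pow {n : ℕ} (T : Hil n →L[ℂ] Hil n) (M : ℤ)
    (hT : ∀ p q, M < |p.1 - q.1| → entry T p q = 0) (q : ℤ × Fin n) (k : ℕ) :
    ∀ r : ℤ × Fin n, k * M < |r.1 - q.1| → ((T ^ k) (del q)) r = 0 := by
  induction k with
  | zero =>
    intro r hr
    have h1 : r ≠ q := by rintro rfl; simp at hr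
    simp only [pow_zero, one_apply_eq_self]
    unfold del
    rw [lp.single_apply_ne _ _ _ h1]
  | succ k ih =>
    intro r hr
    rw [pow_succ', mul_apply_eq_comp]
    apply supp_apply T M hT _ q.1 (k * M) ih r
    push_cast at hr
    linarith

/-! ## Windows -/

/-- The levels `M ≤ i < ℓ - M`. -/
def lvl (ℓ n M : ℕ) : Finset (Fin ℓ × Fin n) :=
  Finset.univ.filter (fun p : Fin ℓ × Fin n => M ≤ (p.1 : ℕ) ∧ (p.1 : ℕ) + M < ℓ)

theorem place_apply {ℓ n : ℕ} (M : ℕ) (m : ℤ) (w : EE ℓ n) :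
    (place M m : EE ℓ n →L[ℂ] Hil n) w = ∑ p ∈ lvl ℓ n M, w p • del (m + ((p.1 : ℕ) : ℤ), p.2) := by
  unfold place lvl
  rw [sum_apply]
  rfl

theorem place_single {ℓ n : ℕ} (M : ℕ) (m : ℤ) (p : Fin ℓ × Fin n) :
    (place M m : EE ℓ n →L[ℂ] Hil n) (EuclideanSpace.single p (1 : ℂ))
      = if p ∈ lvl ℓ n M then del (m + ((p.1 : ℕ) : ℤ), p.2) else 0 := by
  rw [place_apply]
  split_ifs with hp
  · rw [Finset.sum_eq_single p]
    · simp
    · intro q _ hqp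
      simp [hqp]
    · intro h; exact absurd hp h
  · apply Finset.sum_eq_zero
    intro q hq
    have hqp : q ≠ p := by rintro rfl; exact hp hq
    simp [hqp]

theorem adj_place {ℓ n : ℕ} (M : ℕ) (m : ℤ) (v : Hil n) (p : Fin ℓ × Fin n) :
    (ContinuousLinearMap.adjoint (place M m : EE ℓ n →L[ℂ] Hil n) v) p
      = if p ∈ lvl ℓ n M then v (m + ((p.1 : ℕ) : ℤ), p.2) else 0 := by
  have h1 : (ContinuousLinearMap.adjoint (place M m : EE ℓ n →L[ℂ] Hil n) v) p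
      = ⟪EuclideanSpace.single p (1 : ℂ),
        ContinuousLinearMap.adjoint (place M m : EE ℓ n →L[ℂ] Hil n) v⟫_ℂ := by
    rw [EuclideanSpace.inner_single_left]; simp
  rw [h1, ContinuousLinearMap.adjoint_inner_right, place_single]
  split_ifs with hp
  · unfold del
    rw [lp.inner_single_left]
    simp
  · simp

theorem mem_lvl {ℓ n M : ℕ} (p : Fin ℓ × Fin n) :
    p ∈ lvl ℓ n M ↔ M ≤ (p.1 : ℕ) ∧ (p.1 : ℕ) + M < ℓ := by
  simp [lvl]

theorem place_adj {ℓ n : ℕ} (M : ℕ) (v : Hil n)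
    (hv : ∀ r : ℤ × Fin n, ¬ ((M : ℤ) ≤ r.1 ∧ r.1 + M < ℓ) → v r = 0) :
    (place M 0 : EE ℓ n →L[ℂ] Hil n)
      (ContinuousLinearMap.adjoint (place M 0 : EE ℓ n →L[ℂ] Hil n) v) = v := by
  rw [place_apply]
  ext r
  rw [lp.coeFn_sum, Finset.sum_apply]
  have h1 : ∀ p ∈ lvl ℓ n M, ((((ContinuousLinearMap.adjoint (place M 0 : EE ℓ n →L[ℂ] Hil n)) v) p
      • (del (0 + ((p.1 : ℕ) : ℤ), p.2) : Hil n) : Hil n) : ℤ × Fin n → ℂ) r
      = if ((((p.1 : ℕ) : ℤ), p.2) : ℤ × Fin n) = r then v r else 0 := by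
    intro p hp
    rw [adj_place, if_pos hp, zero_add, lp.coeFn_smul, Pi.smul_apply]
    unfold del
    split_ifs with h
    · rw [← h, lp.single_apply_self]; simp
    · rw [lp.single_apply_ne _ _ _ (Ne.symm h)]; simp
  rw [Finset.sum_congr rfl h1]
  by_cases hr : (M : ℤ) ≤ r.1 ∧ r.1 + M < ℓ
  · have hr0 : 0 ≤ r.1 := le_trans (by positivity) hr.1
    have hrl : r.1.toNat < ℓ := by omega
    have hq : ((⟨r.1.toNat, hrl⟩, r.2) : Fin ℓ × Fin n) ∈ lvl ℓ n M := by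
      rw [mem_lvl]
      simp only
      omega
    rw [Finset.sum_eq_single ((⟨r.1.toNat, hrl⟩, r.2) : Fin ℓ × Fin n)]
    · rw [if_pos]
      ext
      · simp [hr0]
      · simp
    · intro p _ hp
      rw [if_neg]
      intro h
      apply hp
      subst h
      ext <;> simp
    · intro h; exact absurd hq h
  · rw [hv r hr]; simp

theorem win_pow {ℓ n : ℕ} (M : ℕ) (T : Hil n →L[ℂ] Hil n)
    (hT : ∀ p q, (M : ℤ) < |p.1 - q.1| → entry T p q = 0) (p : Fin ℓ × Fin n) (k : ℕ)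
    (hp : M * (k + 1) ≤ (p.1 : ℕ) ∧ (p.1 : ℕ) + M * (k + 1) < ℓ) :
    ((win ℓ M T) ^ k) (EuclideanSpace.single p (1 : ℂ))
      = ContinuousLinearMap.adjoint (place M 0 : EE ℓ n →L[ℂ] Hil n)
          ((T ^ k) (del (((p.1 : ℕ) : ℤ), p.2))) := by
  have hpl : p ∈ lvl ℓ n M := by
    rw [mem_lvl]
    have h1 : M ≤ M * (k + 1) := Nat.le_mul_of_pos_right _ (by omega)
    omega
  induction k with
  | zero =>
    simp only [pow_zero, one_apply_eq_self]
    ext q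
    rw [adj_place, PiLp.single_apply]
    split_ifs with h1 h2 h2
    · subst h1
      unfold del
      rw [zero_add, lp.single_apply_self]
    · exact absurd (h1 ▸ hpl) h2
    · unfold del
      rw [zero_add, lp.single_apply_ne]
      intro h
      apply h1
      have h3 := congrArg Prod.fst h
      have h4 := congrArg Prod.snd h
      simp only at h3 h4
      ext
      · exact_mod_cast h3
      · rw [h4]
    · rfl
  | succ k ih =>
    have hp' : M * (k + 1) ≤ (p.1 : ℕ) ∧ (p.1 : ℕ) + M * (k + 1) < ℓ := by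
      have h1 : M * (k + 1) ≤ M * (k + 1 + 1) := Nat.mul_le_mul_left _ (by omega)
      omega
    rw [pow_succ', mul_apply_eq_comp, ih hp', pow_succ', mul_apply_eq_comp]
    unfold win
    rw [ContinuousLinearMap.comp_apply, ContinuousLinearMap.comp_apply, place_adj]
    intro r hr
    apply supp_pow T M hT
    have h1 : M * (k + 1 + 1) = M * k + 2 * M := by ring
    rw [h1] at hp
    have h2 : (k : ℤ) * M = ((M * k : ℕ) : ℤ) := by push_cast; ring
    rw [h2]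
    simp only
    rw [lt_abs]
    omega

/-- Diagonal entries of polynomials of windows, away from the boundary. -/
theorem win_diag {ℓ n : ℕ} (M : ℕ) (T : Hil n →L[ℂ] Hil n)
    (hT : ∀ p q, (M : ℤ) < |p.1 - q.1| → entry T p q = 0) (q : ℝ[X]) (p : Fin ℓ × Fin n)
    (hp : M * (q.natDegree + 1) ≤ (p.1 : ℕ) ∧ (p.1 : ℕ) + M * (q.natDegree + 1) < ℓ) :
    (aeval (win ℓ M T) q (EuclideanSpace.single p (1 : ℂ))) p
      = entry (aeval T q) (((p.1 : ℕ) : ℤ), p.2) (((p.1 : ℕ) : ℤ), p.2) := by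
  have hpl : p ∈ lvl ℓ n M := by
    rw [mem_lvl]
    have h1 : M ≤ M * (q.natDegree + 1) := Nat.le_mul_of_pos_right _ (by omega)
    omega
  unfold entry
  rw [aeval_eq_sum_range, aeval_eq_sum_range, sum_apply, sum_apply]
  rw [WithLp.ofLp_sum, Finset.sum_apply, lp.coeFn_sum, Finset.sum_apply]
  refine Finset.sum_congr rfl fun k hk => ?_
  have hk' : k ≤ q.natDegree := by
    have := Finset.mem_range.1 hk; omega
  have hpk : M * (k + 1) ≤ (p.1 : ℕ) ∧ (p.1 : ℕ) + M * (k + 1) < ℓ := by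
    have h1 : M * (k + 1) ≤ M * (q.natDegree + 1) := Nat.mul_le_mul_left _ (by omega)
    omega
  have h2 := win_pow M T hT p k hpk
  have h3 : ((q.coeff k • (win ℓ M T) ^ k) (EuclideanSpace.single p (1 : ℂ))) p
      = q.coeff k • (((win ℓ M T) ^ k) (EuclideanSpace.single p (1 : ℂ))) p := rfl
  have h4 : ((q.coeff k • T ^ k) (del (((p.1 : ℕ) : ℤ), p.2)) : Hil n) (((p.1 : ℕ) : ℤ), p.2)
      = q.coeff k • ((T ^ k) (del (((p.1 : ℕ) : ℤ), p.2)) : Hil n) (((p.1 : ℕ) : ℤ), p.2) := rfl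
  rw [h3, h4, h2, adj_place, if_pos hpl, zero_add]

theorem place_coord {ℓ n : ℕ} (M : ℕ) (w : EE ℓ n) (p : Fin ℓ × Fin n) (hp : p ∈ lvl ℓ n M) :
    ((place M 0 : EE ℓ n →L[ℂ] Hil n) w) (0 + ((p.1 : ℕ) : ℤ), p.2) = w p := by
  rw [place_apply, lp.coeFn_sum, Finset.sum_apply, Finset.sum_eq_single p]
  · rw [lp.coeFn_smul, Pi.smul_apply]
    unfold del
    rw [lp.single_apply_self]; simp
  · intro q _ hq
    rw [lp.coeFn_smul, Pi.smul_apply]
    unfold del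
    rw [lp.single_apply_ne, smul_zero]
    intro h
    apply hq
    have h3 := congrArg Prod.fst h
    have h4 := congrArg Prod.snd h
    simp only [zero_add] at h3 h4
    ext
    · exact_mod_cast h3.symm
    · rw [h4]
  · intro h; exact absurd hp h

theorem norm_place_le {ℓ n : ℕ} (M : ℕ) : ‖(place M 0 : EE ℓ n →L[ℂ] Hil n)‖ ≤ 1 := by
  apply ContinuousLinearMap.opNorm_le_bound _ zero_le_one
  intro w
  rw [one_mul]
  apply le_of_sq_le_sq _ (norm_nonneg _)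
  have h1 : ‖(place M 0 : EE ℓ n →L[ℂ] Hil n) w‖ ^ 2
      = RCLike.re ⟪w, ContinuousLinearMap.adjoint (place M 0 : EE ℓ n →L[ℂ] Hil n)
        ((place M 0 : EE ℓ n →L[ℂ] Hil n) w)⟫_ℂ := by
    rw [ContinuousLinearMap.adjoint_inner_right, ← norm_sq_eq_re_inner]
  rw [h1, PiLp.inner_apply, map_sum, EuclideanSpace.norm_sq_eq]
  refine Finset.sum_le_sum fun p _ => ?_
  rw [adj_place]
  split_ifs with hp
  · rw [place_coord M w p hp, ← norm_sq_eq_re_inner]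
  · rw [inner_zero_right, map_zero]; positivity

theorem norm_win_le {ℓ n : ℕ} (M : ℕ) (T : Hil n →L[ℂ] Hil n) : ‖win ℓ M T‖ ≤ ‖T‖ := by
  unfold win
  calc ‖(ContinuousLinearMap.adjoint (place M 0 : EE ℓ n →L[ℂ] Hil n)) ∘L T ∘L (place M 0)‖
      ≤ ‖ContinuousLinearMap.adjoint (place M 0 : EE ℓ n →L[ℂ] Hil n)‖ * ‖T ∘L (place M 0)‖ :=
        ContinuousLinearMap.opNorm_comp_le _ _
    _ ≤ ‖ContinuousLinearMap.adjoint (place M 0 : EE ℓ n →L[ℂ] Hil n)‖ *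
          (‖T‖ * ‖(place M 0 : EE ℓ n →L[ℂ] Hil n)‖) := by
        gcongr; exact ContinuousLinearMap.opNorm_comp_le _ _
    _ ≤ 1 * (‖T‖ * 1) := by
        have h1 := norm_place_le (ℓ := ℓ) (n := n) M
        have h2 : ‖ContinuousLinearMap.adjoint (place M 0 : EE ℓ n →L[ℂ] Hil n)‖ ≤ 1 := by
          rw [LinearIsometryEquiv.norm_map]; exact h1
        gcongr
    _ = ‖T‖ := by ring

theorem card_bad (ℓ n m : ℕ) :
    (Finset.univ.filter (fun p : Fin ℓ × Fin n => ¬ (m ≤ (p.1 : ℕ) ∧ (p.1 : ℕ) + m < ℓ))).card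
      ≤ 2 * m * n := by
  classical
  have h1 : (Finset.univ.filter
      (fun p : Fin ℓ × Fin n => ¬ (m ≤ (p.1 : ℕ) ∧ (p.1 : ℕ) + m < ℓ))).card
      ≤ ((Finset.range m ∪ Finset.Ico (ℓ - m) ℓ) ×ˢ (Finset.univ : Finset (Fin n))).card := by
    apply Finset.card_le_card_of_injOn (fun p => ((p.1 : ℕ), p.2))
    · intro p hp
      have hp' := (Finset.mem_filter.1 (Finset.mem_coe.1 hp)).2
      have hl := p.1.2
      simp only [Finset.coe_product, Set.mem_prod, Finset.mem_coe, Finset.mem_union,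
        Finset.mem_range, Finset.mem_Ico, Finset.mem_univ, and_true]
      omega
    · intro p _ q _ hpq
      simp only [Prod.mk.injEq] at hpq
      ext
      · exact hpq.1
      · rw [hpq.2]
  refine h1.trans ?_
  rw [Finset.card_product, Finset.card_univ, Fintype.card_fin]
  apply Nat.mul_le_mul_right
  refine (Finset.card_union_le _ _).trans ?_
  rw [Finset.card_range, Nat.card_Ico]
  omega

theorem norm_aeval_le {E : Type} [NormedAddCommGroup E] [NormedSpace ℂ E] (T : E →L[ℂ] E)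
    (hT : ‖T‖ ≤ 2) (q : ℝ[X]) : ‖aeval T q‖ ≤ bdC q := by
  have h1 := aeval_mul_bound q T 1 hT
  rw [mul_one] at h1
  have h2 : ‖(1 : E →L[ℂ] E)‖ ≤ 1 := ContinuousLinearMap.norm_id_le
  calc ‖aeval T q‖ ≤ bdC q * ‖(1 : E →L[ℂ] E)‖ := h1
    _ ≤ bdC q * 1 := mul_le_mul_of_nonneg_left h2 (bdC_nonneg q)
    _ = bdC q := mul_one _

/-- The middle step: the window against the orbit sum, for a polynomial. -/
theorem middle (hMB : MBStmt) {X : Type} [TopologicalSpace X] [CompactSpace X] (h : X ≃ₜ X) (n : ℕ)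
    (𝒜 : Type) [CStarAlgebra 𝒜] [PartialOrder 𝒜] [StarOrderedRing 𝒜] (M : Model h n 𝒜)
    (a₁ : 𝒜) (ha₁ : ‖a₁‖ ≤ 2) (M₀ : ℕ) (hb : BandLE M a₁ M₀) (q : ℝ[X]) (ℓ : ℕ) (x : X) :
    |trE (aeval (win ℓ M₀ (M.fib x a₁)) q)
      - ∑ i ∈ Finset.range ℓ, tr0 M (aeval a₁ q) ((h ^ (i : ℤ)) x)|
      ≤ 2 * (M₀ * (q.natDegree + 1)) * n * (2 * bdC q) := by
  classical
  obtain ⟨c, hc⟩ := hb
  obtain ⟨-, -, hcov, -, -, -⟩ := hMB X h n 𝒜 M
  set T := M.fib x a₁ with hTdef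
  have hTn : ‖T‖ ≤ 2 := (NonUnitalStarAlgHom.norm_apply_le (M.fib x) a₁).trans ha₁
  have hWn : ‖win ℓ M₀ T‖ ≤ 2 := (norm_win_le M₀ T).trans hTn
  have hT : ∀ p q, (M₀ : ℤ) < |p.1 - q.1| → entry T p q = 0 := by
    intro p q hpq
    rw [hTdef, hc.2 x p q, if_neg (not_le.2 hpq)]
  have hfib : ∀ y, M.fib y (aeval a₁ q) = aeval (M.fib y a₁) q := by
    intro y
    have := Polynomial.aeval_algHom_apply ((M.fib y).toAlgHom.restrictScalars ℝ) a₁ q
    exact this.symm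
  have hsum : ∑ i ∈ Finset.range ℓ, tr0 M (aeval a₁ q) ((h ^ (i : ℤ)) x)
      = ∑ p : Fin ℓ × Fin n, (entry (aeval T q) (((p.1 : ℕ) : ℤ), p.2)
          (((p.1 : ℕ) : ℤ), p.2)).re := by
    rw [Finset.sum_range, Fintype.sum_prod_type]
    refine Finset.sum_congr rfl fun i _ => ?_
    unfold tr0
    refine Finset.sum_congr rfl fun e _ => ?_
    rw [hcov, hfib]
    simp only [zero_add]
    rfl
  rw [hsum]
  unfold trE
  rw [← Finset.sum_sub_distrib]
  refine (Finset.abs_sum_le_sum_abs _ _).trans ?_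
  set m := M₀ * (q.natDegree + 1) with hm
  have hterm : ∀ p : Fin ℓ × Fin n,
      |((aeval (win ℓ M₀ T) q) (EuclideanSpace.single p (1 : ℂ)) p).re
        - (entry (aeval T q) (((p.1 : ℕ) : ℤ), p.2) (((p.1 : ℕ) : ℤ), p.2)).re|
      ≤ if ¬ (m ≤ (p.1 : ℕ) ∧ (p.1 : ℕ) + m < ℓ) then 2 * bdC q else 0 := by
    intro p
    by_cases hp : m ≤ (p.1 : ℕ) ∧ (p.1 : ℕ) + m < ℓ
    · rw [if_neg (not_not.2 hp), win_diag M₀ T hT q p hp, sub_self, abs_zero]
    · rw [if_pos hp]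
      refine (abs_sub _ _).trans ?_
      have h1 := trE_term (aeval (win ℓ M₀ T) q) p
      have h2 := norm_aeval_le (win ℓ M₀ T) hWn q
      have h3 := norm_aeval_le T hTn q
      have h4 : |(entry (aeval T q) (((p.1 : ℕ) : ℤ), p.2) (((p.1 : ℕ) : ℤ), p.2)).re|
          ≤ ‖aeval T q‖ := (Complex.abs_re_le_norm _).trans (norm_entry_le _ _ _)
      exact (add_le_add (h1.trans h2) (h4.trans h3)).trans (le_of_eq (two_mul _).symm)
  refine (Finset.sum_le_sum fun p _ => hterm p).trans ?_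
  rw [← Finset.sum_filter, Finset.sum_const, nsmul_eq_mul]
  have h1 := card_bad ℓ n m
  have h2 : ((Finset.univ.filter (fun p : Fin ℓ × Fin n =>
      ¬ (m ≤ (p.1 : ℕ) ∧ (p.1 : ℕ) + m < ℓ))).card : ℝ) ≤ 2 * m * n := by exact_mod_cast h1
  have h3 : 0 ≤ 2 * bdC q := by have := bdC_nonneg q; positivity
  have h4 := mul_le_mul_of_nonneg_right h2 h3
  rw [hm] at h4
  push_cast at h4
  exact h4

/-- Module SZ. -/
theorem sz (hMB : MBStmt) : SZStmt := by
  intro X _ _ h n 𝒜 _ _ _ M a ha ha1 f hf δ hδ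
  have hn0 : (0:ℝ) ≤ n := Nat.cast_nonneg n
  obtain ⟨q, hq⟩ := exists_polynomial_near_of_continuousOn 0 2 f hf.continuousOn
    (δ / (8 * (n + 1))) (by positivity)
  have hq' : ∀ t, 0 ≤ t → t ≤ 2 → |f t - q.eval t| ≤ δ / (8 * (n + 1)) := by
    intro t h0 h2
    rw [abs_sub_comm]
    exact (hq t ⟨h0, h2⟩).le
  have hL := lipC_nonneg q
  have hC := bdC_nonneg q
  set η : ℝ := min (1 / 4) (δ / (8 * (n + 1) * (lipC q + 1))) with hη
  have hη0 : 0 < η := by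
    rw [hη]; apply lt_min (by norm_num); positivity
  have hη4 : η ≤ 1 / 4 := min_le_left _ _
  have hηL : n * (lipC q * η) ≤ δ / 8 := by
    have h1 : η ≤ δ / (8 * (n + 1) * (lipC q + 1)) := min_le_right _ _
    have h2 : (n : ℝ) * (lipC q * η) ≤ (n + 1) * ((lipC q + 1) * η) := by
      gcongr <;> linarith
    have h3 : (n + 1) * ((lipC q + 1) * η)
        ≤ (n + 1) * ((lipC q + 1) * (δ / (8 * (n + 1) * (lipC q + 1)))) := by gcongr
    have h4 : (n + 1) * ((lipC q + 1) * (δ / (8 * (n + 1) * (lipC q + 1)))) = δ / 8 := by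
      field_simp
    linarith
  have hδn : n * (δ / (8 * (n + 1))) ≤ δ / 8 := by
    have h2 : (n : ℝ) * (δ / (8 * (n + 1))) ≤ (n + 1) * (δ / (8 * (n + 1))) := by
      gcongr; linarith
    have h4 : ((n : ℝ) + 1) * (δ / (8 * (n + 1))) = δ / 8 := by field_simp
    linarith
  refine ⟨η, hη0, fun a₁ ha₁ haa M₀ hb => ?_⟩
  have ha₁n : ‖a₁‖ ≤ 1 + 1 / 4 := by
    have h1 : a₁ = a - (a - a₁) := by abel
    have h2 := norm_sub_le a (a - a₁)
    rw [← h1] at h2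
    linarith
  set K : ℝ := 2 * (M₀ * (q.natDegree + 1)) * n * (2 * bdC q) with hK
  have hK0 : 0 ≤ K := by positivity
  refine ⟨⌈2 * K / δ⌉₊, fun ℓ hℓ x A hA hAW => ?_⟩
  have hKℓ : K ≤ δ / 2 * ℓ := by
    have h1 : 2 * K / δ ≤ ℓ := (Nat.le_ceil _).trans (by exact_mod_cast hℓ)
    rw [div_le_iff₀ hδ] at h1
    linarith
  have hTn : ‖M.fib x a₁‖ ≤ 1 + 1 / 4 :=
    (NonUnitalStarAlgHom.norm_apply_le (M.fib x) a₁).trans ha₁n
  have hWn : ‖win ℓ M₀ (M.fib x a₁)‖ ≤ 1 + 1 / 4 := (norm_win_le M₀ _).trans hTn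
  have hAn : ‖A‖ ≤ 2 := by
    have h1 : A = (A - win ℓ M₀ (M.fib x a₁)) + win ℓ M₀ (M.fib x a₁) := by abel
    have h2 := norm_add_le (A - win ℓ M₀ (M.fib x a₁)) (win ℓ M₀ (M.fib x a₁))
    rw [← h1] at h2
    linarith
  have hcard : (Fintype.card (Fin ℓ × Fin n) : ℝ) = ℓ * n := by simp
  have hℓ0 : (0:ℝ) ≤ ℓ := Nat.cast_nonneg ℓ
  -- step 1
  have s1 : |trE (cfc f A) - trE (aeval A q)| ≤ ℓ * n * (δ / (8 * (n + 1))) := by
    refine (trE_sub_bound _ _).trans ?_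
    rw [hcard]
    have := cfc_sub_aeval hA hAn f hf q _ (by positivity) hq'
    gcongr
  -- step 2
  have s2 : |trE (aeval A q) - trE (aeval (win ℓ M₀ (M.fib x a₁)) q)|
      ≤ ℓ * n * (lipC q * η) := by
    refine (trE_sub_bound _ _).trans ?_
    rw [hcard]
    have h1 := aeval_sub_bound q A (win ℓ M₀ (M.fib x a₁)) hAn (hWn.trans (by norm_num))
    have h2 : lipC q * ‖A - win ℓ M₀ (M.fib x a₁)‖ ≤ lipC q * η :=
      mul_le_mul_of_nonneg_left hAW hL
    exact mul_le_mul_of_nonneg_left (h1.trans h2) (by positivity)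
  -- step 3
  have s3 := middle hMB h n 𝒜 M a₁ (ha₁n.trans (by norm_num)) M₀ hb q ℓ x
  rw [← hK] at s3
  -- step 4
  have s4 : |∑ i ∈ Finset.range ℓ, tr0 M (aeval a₁ q) ((h ^ (i : ℤ)) x)
      - ∑ i ∈ Finset.range ℓ, tr0 M (aeval a q) ((h ^ (i : ℤ)) x)| ≤ ℓ * n * (lipC q * η) := by
    rw [← Finset.sum_sub_distrib]
    refine (Finset.abs_sum_le_sum_abs _ _).trans ?_
    calc ∑ i ∈ Finset.range ℓ, |tr0 M (aeval a₁ q) ((h ^ (i : ℤ)) x)
          - tr0 M (aeval a q) ((h ^ (i : ℤ)) x)|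
        ≤ ∑ _i ∈ Finset.range ℓ, n * (lipC q * η) := by
          refine Finset.sum_le_sum fun i _ => (tr0_sub_bound M _ _ _).trans ?_
          have h1 := aeval_sub_bound q a₁ a (ha₁n.trans (by norm_num)) (ha1.trans (by norm_num))
          have h2 : ‖a₁ - a‖ ≤ η := by rw [norm_sub_rev]; exact haa
          have h3 : lipC q * ‖a₁ - a‖ ≤ lipC q * η := mul_le_mul_of_nonneg_left h2 hL
          exact mul_le_mul_of_nonneg_left (h1.trans h3) hn0
      _ = ℓ * n * (lipC q * η) := by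
          rw [Finset.sum_const, Finset.card_range, nsmul_eq_mul]; ring
  -- step 5
  have s5 : |∑ i ∈ Finset.range ℓ, tr0 M (aeval a q) ((h ^ (i : ℤ)) x)
      - ∑ i ∈ Finset.range ℓ, tr0 M (cfcC f a) ((h ^ (i : ℤ)) x)|
      ≤ ℓ * n * (δ / (8 * (n + 1))) := by
    rw [← Finset.sum_sub_distrib]
    refine (Finset.abs_sum_le_sum_abs _ _).trans ?_
    calc ∑ i ∈ Finset.range ℓ, |tr0 M (aeval a q) ((h ^ (i : ℤ)) x)
          - tr0 M (cfcC f a) ((h ^ (i : ℤ)) x)|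
        ≤ ∑ _i ∈ Finset.range ℓ, n * (δ / (8 * (n + 1))) := by
          refine Finset.sum_le_sum fun i _ => (tr0_sub_bound M _ _ _).trans ?_
          have h1 := cfc_sub_aeval ha (ha1.trans (by norm_num)) f hf q _ (by positivity) hq'
          rw [norm_sub_rev] at h1
          exact mul_le_mul_of_nonneg_left h1 hn0
      _ = ℓ * n * (δ / (8 * (n + 1))) := by
          rw [Finset.sum_const, Finset.card_range, nsmul_eq_mul]; ring
  have t1 : (ℓ : ℝ) * n * (δ / (8 * (n + 1))) ≤ ℓ * (δ / 8) := by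
    rw [mul_assoc]; exact mul_le_mul_of_nonneg_left hδn hℓ0
  have t2 : (ℓ : ℝ) * n * (lipC q * η) ≤ ℓ * (δ / 8) := by
    rw [mul_assoc]; exact mul_le_mul_of_nonneg_left hηL hℓ0
  rw [abs_le] at s1 s2 s3 s4 s5 ⊢
  constructor <;> linarith [s1.1, s1.2, s2.1, s2.2, s3.1, s3.2, s4.1, s4.2, s5.1, s5.2]

end Pool.Agent.H16.RC
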